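import Pool.Agent.N647.CF.Gen
import Pool.Agent.R713.AS.Data
import Pool.Agent.TH805.CG.Base7

/-!
# Counting number fields of degree `n` whose class group has large `m`-rank
-/

set_option autoImplicit false

namespace Pool.Agent.Results.MP_176ace_nt.CountingFields

open NumberField Pool.Agent.W289.CG Pool.Agent.N647.CF

/-- the excess of the rank over the number `r₂` of complex places, for `r₂ = ⌊n/2⌋` and `r₂ = 0` -/
def excess (n : ℕ) : ℕ :=
  if n ≤ 10 then n - 1 else if n = 12 then 11 else if Even n ∨ 29 ≤ n then 6 else 4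

theorem data (n : ℕ) (hn : 3 ≤ n) : Nonempty (Dat n (excess n)) := by
  unfold excess
  split_ifs with h1 h2 h3
  · exact Pool.Agent.W21.CG.small n (by omega)
  · subst h2
    exact Pool.Agent.W21.CG.small 12 (by omega)
  · by_cases he : n % 2 = 0
    · exact Pool.Agent.TH805.CG6.even6 n (by omega) he
    · have h4 : 29 ≤ n := by
        rcases h3 with h3 | h3
        · exact absurd (Nat.even_iff.1 h3) he
        · exact h3
      have h6 : n % 6 = 1 ∨ n % 6 = 3 ∨ n % 6 = 5 := by omega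
      rcases h6 with h | h | h
      · exact Pool.Agent.TH805.CG6.odd1 n (by omega) h
      · exact Pool.Agent.TH805.CG6.odd3 n (by omega) h
      · exact Pool.Agent.TH805.CG6.odd5 n (by omega) h
  · have he : n % 2 = 1 := by
      by_contra hcon
      exact h3 (Or.inl (Nat.even_iff.2 (by omega)))
    exact Pool.Agent.TH805.CG4.all4 n (by omega) he

/-- Let `n ≥ 3`, `m ≥ 2` and `r₁ + 2 r₂ = n`.  Let `κ = 2`, or let `r₂ = ⌊n/2⌋` or `r₂ = 0` and
`κ = n - 1` if `n ≤ 10` or `n = 12`, `κ = 6` if `n ≥ 14` is even or `n ≥ 29`, and `κ = 4` for the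
odd `n` between `11` and `27`.  There is `c > 0` such that for all large `X` there are at least
`c X ^ (1 / (2 m (n - 1))) / log X` integers `d` with `|d| ≤ X` which are discriminants of number
fields of degree `n` with `r₁` real and `r₂` complex places whose class group contains
`(ℤ/m)^(r₂+κ)`. -/
theorem result (n r₁ r₂ κ m : ℕ) (hn : 3 ≤ n) (hr : r₁ + 2 * r₂ = n) (hm : 2 ≤ m)
    (hκ : κ = 2 ∨ ((r₂ = n / 2 ∨ r₂ = 0) ∧ κ = excess n)) :
    ∃ c : ℝ, 0 < c ∧ ∃ X₀ : ℝ, ∀ X : ℝ, X₀ ≤ X → ∃ S : Finset ℤ,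
      c * X ^ (1 / (2 * (m : ℝ) * ((n : ℝ) - 1))) / Real.log X ≤ S.card ∧
      ∀ d ∈ S, |(d : ℝ)| ≤ X ∧
        ∃ (K : Type) (_ : Field K) (_ : NumberField K), discr K = d ∧
          Module.finrank ℚ K = n ∧ InfinitePlace.nrRealPlaces K = r₁ ∧
          InfinitePlace.nrComplexPlaces K = r₂ ∧
          ∃ f : Multiplicative (Fin (r₂ + κ) → ZMod m) →* ClassGroup (𝓞 K),
            Function.Injective f := by
  have hexp : (((2 * m * (n - 1) : ℕ) : ℝ)) = 2 * (m : ℝ) * ((n : ℝ) - 1) := by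
    push_cast [Nat.cast_sub (by omega : 1 ≤ n)]
    ring
  suffices h : ∃ c : ℝ, 0 < c ∧ ∀ᶠ X : ℝ in Filter.atTop, ∃ S : Finset ℤ,
      c * X ^ (1 / ((2 * m * (n - 1) : ℕ) : ℝ)) / Real.log X ≤ S.card ∧
      ∀ d ∈ S, |(d : ℝ)| ≤ X ∧ Big n r₁ r₂ m (r₂ + κ) d by
    obtain ⟨c, hc, h⟩ := h
    rw [hexp] at h
    obtain ⟨X₀, hX₀⟩ := Filter.eventually_atTop.1 h
    exact ⟨c, hc, X₀, hX₀⟩
  rcases hκ with rfl | ⟨hr2, rfl⟩
  · obtain ⟨e, p, he, hnp⟩ : ∃ e p : ℕ, e ≤ 1 ∧ n = 1 + e + 2 * (p + 1) := by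
      rcases Nat.even_or_odd n with ⟨k, hk⟩ | ⟨k, hk⟩
      · exact ⟨1, k - 2, le_rfl, by omega⟩
      · exact ⟨0, k - 1, by omega, by omega⟩
    subst hnp
    rcases Nat.lt_or_ge (p + 1) r₂ with h | h
    · obtain ⟨D, -⟩ := Pool.Agent.R713.AS.ex_data e p 0 he (by omega)
      have h1 := count_complex (by omega) (by norm_num : 1 ≤ 2) D m hm
      have e1 : (1 + e + 2 * (p + 1)) % 2 = r₁ := by omega
      have e2 : (1 + e + 2 * (p + 1)) / 2 = r₂ := by omega
      rw [e1, e2] at h1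
      exact h1
    · obtain ⟨D, v₁, v₂, h1, h2, h3⟩ := Pool.Agent.R713.AS.ex_data e p r₂ he h
      refine count_of_interval (by omega) (by norm_num : 1 ≤ 2) D m hm r₁ r₂ (by omega) v₁ v₂ h1 h2
        fun v hv hv' => ?_
      rw [h3 v hv hv']
      omega
  · obtain ⟨D⟩ := data n hn
    have hk : 1 ≤ excess n := by
      unfold excess
      split_ifs <;> omega
    rcases hr2 with h | h
    · have h1 := count_complex (by omega) hk D m hm
      have e1 : n % 2 = r₁ := by omega
      rw [e1, ← h] at h1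
      exact h1
    · have h1 := count_real (by omega) hk D m hm
      subst h
      have e1 : r₁ = n := by omega
      subst e1
      exact h1

end Pool.Agent.Results.MP_176ace_nt.CountingFields
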