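import Pool.Agent.N53.CL.Both

/-!
# Class groups with large `m`-rank and arbitrarily large `n`-rank, and prescribed local behaviour
-/

set_option autoImplicit false

namespace Pool.Agent.Results.MP_176ace_nt.PrescribedLocalBehaviour

open NumberField Pool.Agent.W289.CG Pool.Agent.N53.CL

/-- Outside the prime divisors of some `Z > 0` which depends only on `n`, `r₁`, `r₂`, `κ`: for all
`m ≥ 2`, `N`, `R` and all disjoint finite sets `S` and `T` of primes (those of `T` not dividing `m`)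
there is a number field `K` of degree `n`, of signature `(r₁, r₂)` and of discriminant larger than
`N` in absolute value, such that the class group of `K` contains `(ℤ/m)^(r₂+κ)` and `(ℤ/n)^R`, every
prime of `S` splits completely in `K` and every prime of `T` is totally ramified in `K`. -/
def Fields (n r₁ r₂ κ : ℕ) : Prop :=
  ∃ Z : ℕ, 0 < Z ∧ ∀ m N R : ℕ, 2 ≤ m → ∀ S T : Finset ℕ,
    (∀ p ∈ S, p.Prime ∧ ¬ p ∣ Z) → (∀ q ∈ T, q.Prime ∧ ¬ q ∣ Z ∧ ¬ q ∣ m) → Disjoint S T →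
    ∃ (K : Type) (_ : Field K) (_ : NumberField K), Module.finrank ℚ K = n ∧
      InfinitePlace.nrRealPlaces K = r₁ ∧ InfinitePlace.nrComplexPlaces K = r₂ ∧
      (N : ℤ) < |discr K| ∧
      (∃ f : Multiplicative (Fin (r₂ + κ) → ZMod m) →* ClassGroup (𝓞 K), Function.Injective f) ∧
      (∃ f : Multiplicative (Fin R → ZMod n) →* ClassGroup (𝓞 K), Function.Injective f) ∧
      (∀ p ∈ S, ∃ P : Fin n → Ideal (𝓞 K), Function.Injective P ∧ (∀ i, (P i).IsPrime) ∧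
        ∏ i, P i = Ideal.span {(p : 𝓞 K)}) ∧
      ∀ q ∈ T, ∃ P : Ideal (𝓞 K), P.IsPrime ∧ P ^ n = Ideal.span {(q : 𝓞 K)}

theorem fields_of_data {n κ r₁ r₂ : ℕ} (hn : 3 ≤ n) (hκ : 1 ≤ κ) (hr : r₁ + 2 * r₂ = n)
    (D : Dat n κ) (v₁ v₂ : ℝ) (h₁ : 0 < v₁) (h₁₂ : v₁ < v₂) (hcount : ∀ v, v₁ < v → v < v₂ →
      {X : ℝ | ∏ i, (X - (D.a i : ℝ)) = - v}.ncard = r₁) : Fields n r₁ r₂ κ := by
  have hZ0 : D.c * |D.bad| ≠ 0 := (mul_pos D.hc (abs_pos.2 (bad_ne D))).ne'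
  refine ⟨(D.c * |D.bad|).natAbs, Int.natAbs_pos.2 hZ0, fun m N R hm S T hS hT hST => ?_⟩
  obtain ⟨K, hK1, hK2, hfr, hreal, hdisc, hspl, hram, hcl, hR⟩ :=
    of_both (by omega) hκ D r₁ v₁ v₂ h₁ h₁₂ hcount m N R hm S T
      (fun p hp => ⟨(hS p hp).1, fun h => (hS p hp).2 (Int.natCast_dvd.1 h)⟩)
      (fun q hq => ⟨(hT q hq).1, fun h => (hT q hq).2.1 (Int.natCast_dvd.1 h)⟩) hST
      (fun q hq => (hT q hq).2.2)
  have h8 := InfinitePlace.card_add_two_mul_card_eq_rank K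
  have h7 := rank_eq K
  refine ⟨K, hK1, hK2, hfr, hreal, ?_, hdisc, hcl (r₂ + κ) ?_, hR, hspl, hram⟩
  · omega
  · omega

/-- The fields exist for every degree `n ≥ 3` and every signature `(r₁, r₂)`, with `κ = 2`, and, if
`r₁ ≤ 1` or `r₂ = 0`, with `κ = n - 1` for `n ≤ 10` and `n = 12`, `κ = 4` for odd `n` with
`11 ≤ n ≤ 27`, and `κ = 6` for all other `n`. -/
theorem result (n r₁ r₂ κ : ℕ) (hn : 3 ≤ n) (hr : r₁ + 2 * r₂ = n)
    (hκ : κ = if r₁ ≤ 1 ∨ r₂ = 0 then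
        (if n ≤ 10 ∨ n = 12 then n - 1 else if n % 2 = 0 ∨ 29 ≤ n then 6 else 4) else 2) :
    Fields n r₁ r₂ κ := by
  by_cases h : r₁ ≤ 1 ∨ r₂ = 0
  · rw [hκ, if_pos h]
    obtain ⟨D⟩ := dat_kap n hn
    obtain ⟨v₁, v₂, h1, h2, h3⟩ := data_ext (by omega) D r₁ r₂ hr (by omega)
    have hk : 1 ≤ kap n := by
      rw [kap]
      split_ifs <;> omega
    have h4 := fields_of_data hn hk hr D v₁ v₂ h1 h2 h3
    rw [kap] at h4
    exact h4
  · rw [hκ, if_neg h]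
    obtain ⟨D, v₁, v₂, h1, h2, h3⟩ := data_all n r₁ r₂ hn hr
    exact fields_of_data hn (by norm_num) hr D v₁ v₂ h1 h2 h3

end Pool.Agent.Results.MP_176ace_nt.PrescribedLocalBehaviour
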