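import Pool.Agent.N855.SG.E1
import Pool.Agent.N855.SG.E2
import Pool.Agent.N855.SG.E3
import Pool.Agent.N855.SG.E4
import Pool.Agent.N855.SG.E5

/-!
# Class groups of large `m`-rank in every signature of the degrees from 4 to 30

The open question asks for number fields of fixed degree `n` whose class groups have unbounded `m`-rank. The classical
construction (Nakano) gives fields of every signature `(r₁, r₂)` with `m`-rank at least `r₂ + 1`, for all `m`; a starting
result of this page (`AllSignatures`) has `r₂ + 2`, and larger values (up to `r₂ + n - 1`) were known only for the two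
extreme signatures `r₂ = 0` and `r₂ = [n/2]`.

Here the excess over `r₂` is `n - 1` for ALL signatures in the degrees `4, 5, 6, 7, 9` (and for some signatures in the degrees
`8, 10, 12`), and at least `4` for all signatures in the degrees from `5` to `30`, at least `6` for most signatures of the even
degrees (`excess`). As in the starting results the fields are `ℚ(θ)`, `L ∏ (θ - a i) + s ^ m = 0`, for integers `a i` such that
the polynomial `A = ∏ (X - a i)` takes a positive value at many integers `b j` (multiplicative analogue of the
Prouhet-Tarry-Escott problem). The number of the real places is the number of the real solutions of `A = - v`; it takes all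
values of the right parity when the local minima of `A` are different. New are the data (found by computer; the ideal solution
in degree 6 is not symmetric) and a certificate for the number of real solutions for all `v` in an interval (`N855/SG/Cert`).
-/

set_option autoImplicit false

namespace Pool.Agent.Results.MP_176ace_nt.SignaturesToThirty

open Pool.Agent.N855.SG

/-- For `4 ≤ n ≤ 30`, every signature `(r₁, r₂)` of degree `n` and every `m ≥ 2` there are number fields of degree `n` with
`r₁` real and `r₂` complex places and arbitrarily large discriminant whose class group contains `(ℤ/m)^(r₂ + excess n r₁)`. -/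
theorem result (n r₁ r₂ m : ℕ) (hn : 4 ≤ n) (hn' : n ≤ 30) (hr : r₁ + 2 * r₂ = n) (hm : 2 ≤ m) :
    Large n r₁ r₂ (excess n r₁) m := by
  interval_cases n
  · exact deg4 m hm r₁ r₂ hr
  · exact deg5 m hm r₁ r₂ hr
  · exact deg6 m hm r₁ r₂ hr
  · exact deg7 m hm r₁ r₂ hr
  · exact deg8 m hm r₁ r₂ hr
  · exact deg9 m hm r₁ r₂ hr
  · exact deg10 m hm r₁ r₂ hr
  · exact deg11 m hm r₁ r₂ hr
  · exact deg12 m hm r₁ r₂ hr
  · exact deg13 m hm r₁ r₂ hr
  · exact deg14 m hm r₁ r₂ hr
  · exact deg15 m hm r₁ r₂ hr
  · exact deg16 m hm r₁ r₂ hr
  · exact deg17 m hm r₁ r₂ hr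
  · exact deg18 m hm r₁ r₂ hr
  · exact deg19 m hm r₁ r₂ hr
  · exact deg20 m hm r₁ r₂ hr
  · exact deg21 m hm r₁ r₂ hr
  · exact deg22 m hm r₁ r₂ hr
  · exact deg23 m hm r₁ r₂ hr
  · exact deg24 m hm r₁ r₂ hr
  · exact deg25 m hm r₁ r₂ hr
  · exact deg26 m hm r₁ r₂ hr
  · exact deg27 m hm r₁ r₂ hr
  · exact deg28 m hm r₁ r₂ hr
  · exact deg29 m hm r₁ r₂ hr
  · exact deg30 m hm r₁ r₂ hr

end Pool.Agent.Results.MP_176ace_nt.SignaturesToThirty
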