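import Pool.Agent.N922.Q6
import Pool.Agent.N958.TR2.Prm

/-!
# The 2-ranks of the class groups of the number fields of degree `d`, in terms of elliptic curves

Let `a ≡ 1 mod 4` and `c ≠ 0` be integers with `c < 0`, or `a > 0` and `64c < a²`, `D = a² - 64c`,
`E : y² = x³ - 2a x² + D x` and the isogenous curve `E' : y² = x³ + a x² + 16c x` (elliptic curves over
`ℚ`, for example of conductor `34` for `a = 33`, `c = 17`). For every number field `K` of degree `d` with
`r = r₁ + r₂` infinite places and 2-rank `ρ` of the class group the numbers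
`x(W) = rank W(K) + dim Ш(W/K)[2]` satisfy

  `r - 2 + ρ - d ω(D) ≤ x(E)`,  `x(W) ≤ r - 2 + 2ρ + d ω(D) + d ω(c)`  for `W = E`, `E'`.

So for every family of number fields of degree `d` (for instance all fields of degree `d`, or those
with a given signature or Galois group) the 2-ranks of the class groups are unbounded if and only if the
numbers `rank E(K) + dim Ш(E/K)[2]` are unbounded, for one of these curves `E` or, what is the same, for all
of them. For the family of all fields of degree `d` this is the statement `S(d, 2)` of the problem,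
open for odd `d`. If `S(d, 2)` is false then there is one constant `C` with
`rank W(K) + dim Ш(W/K)[2] ≤ C + d (ω(D) + ω(c))` for all these curves and all `K` of degree `d`.

The inequalities are the case of rational integers `a`, `c` of a theorem of helper922
(`Pool/Agent/N922/Q`, hand-in `UnitsClassGroup`, now in `Pool/Agent/N922/Old`): all elements of `Kˣ` with
even valuations give 2-Selmer elements of `E`.
-/

set_option autoImplicit false

namespace Pool.Agent.Results.MP_176ace_nt.TwoRanksEllipticCurves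

open NumberField IsDedekindDomain

/-- `(ℤ/2) ^ R` embeds in the class group of `K`: the 2-rank of the class group is at least `R`. -/
def TwoRankAtLeast (K : Type) [Field K] [NumberField K] (R : ℕ) : Prop :=
  ∃ f : Multiplicative (Fin R → ZMod 2) →* ClassGroup (𝓞 K), Function.Injective f

/-- The number of the elements of order dividing two of the class group of `K`. -/
noncomputable def clTwo (K : Type) [Field K] [NumberField K] : ℕ :=
  Nat.card {g : ClassGroup (𝓞 K) // g ^ 2 = 1}

/-- The pairs `(a, c)`: `a ≡ 1 mod 4`, `c ≠ 0`, and `c < 0` or `a > 0`, `64c < a²`. -/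
def Admissible (a c : ℤ) : Prop := a % 4 = 1 ∧ c ≠ 0 ∧ (c < 0 ∨ (0 < a ∧ 64 * c < a ^ 2))

/-- The curve `E : y² = x³ - 2a x² + (a² - 64c) x` over `K`. -/
def E (K : Type) [Field K] (a c : ℤ) : WeierstrassCurve K :=
  ⟨0, -2 * (a : K), 0, (a : K) ^ 2 - 64 * (c : K), 0⟩

/-- The curve `E' : y² = x³ + a x² + 16c x` over `K`. -/
def E' (K : Type) [Field K] (a c : ℤ) : WeierstrassCurve K := ⟨0, (a : K), 0, 16 * (c : K), 0⟩

section

variable {K : Type} [Field K] [NumberField K]

/-- The rank of `W(K)`. -/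
noncomputable def rank (W : WeierstrassCurve K) : ℕ := Pool.Agent.TH841.NF.D.rk W

/-- `Ш(W/K)[2]` -/
def ShaTwo (W : WeierstrassCurve K) : Type := {x : Pool.Agent.TH841.NF.D.Sha W // 2 • x = 0}

/-- `2 ^ rank W(K) * #Ш(W/K)[2]` -/
noncomputable def size (W : WeierstrassCurve K) : ℕ := 2 ^ rank W * Nat.card (ShaTwo W)

end

/-- The number of the infinite places of `K`. -/
noncomputable def infinite (K : Type) [Field K] [NumberField K] : ℕ :=
  InfinitePlace.nrRealPlaces K + InfinitePlace.nrComplexPlaces K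

/-- The number of the prime factors of the integer `n`. -/
def omega (n : ℤ) : ℕ := n.natAbs.primeFactors.card

/-- The upper bound for `W` over the field `K` of degree `d`. -/
def Upper (K : Type) [Field K] [NumberField K] (a c : ℤ) (W : WeierstrassCurve K) (d : ℕ) : Prop :=
  4 * size W ≤ 2 ^ (infinite K + d * omega (a ^ 2 - 64 * c) + d * omega c) * clTwo K ^ 2

/-- The lower bound for `E` over the field `K` of degree `d`. -/
def Lower (K : Type) [Field K] [NumberField K] (a c : ℤ) (d : ℕ) : Prop :=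
  2 ^ infinite K * clTwo K ≤ 2 ^ (2 + d * omega (a ^ 2 - 64 * c)) * size (E K a c)

/-- The 2-ranks of the class groups of the fields of degree `d` with the property `P` are
unbounded. -/
def ClassGroupsUnbounded (d : ℕ) (P : ∀ (K : Type) [Field K] [NumberField K], Prop) : Prop :=
  ∀ R : ℕ, ∃ (K : Type) (_ : Field K) (_ : NumberField K),
    Module.finrank ℚ K = d ∧ P K ∧ TwoRankAtLeast K R

/-- The numbers `rank E(K) + dim Ш(E/K)[2]`, for the fields `K` of degree `d` with the property `P`, are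
unbounded. -/
def CurveUnbounded (a c : ℤ) (d : ℕ) (P : ∀ (K : Type) [Field K] [NumberField K], Prop) : Prop :=
  ∀ R : ℕ, ∃ (K : Type) (_ : Field K) (_ : NumberField K),
    Module.finrank ℚ K = d ∧ P K ∧ 2 ^ R ≤ size (E K a c)

theorem disc_pos {a c : ℤ} (h : Admissible a c) : 0 < a ^ 2 - 64 * c := by
  obtain ⟨h1, h2, h3 | ⟨h3, h4⟩⟩ := h
  · nlinarith [sq_nonneg a]
  · linarith

theorem bounds (K : Type) [Field K] [NumberField K] {a c : ℤ} (h : Admissible a c) :
    Finite (ShaTwo (E K a c)) ∧ Finite (ShaTwo (E' K a c)) ∧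
      Lower K a c (Module.finrank ℚ K) ∧ Upper K a c (E K a c) (Module.finrank ℚ K) ∧
      Upper K a c (E' K a c) (Module.finrank ℚ K) := by
  have hDpos := disc_pos h
  obtain ⟨ha, hc, hsign⟩ := h
  obtain ⟨a', ha'⟩ : ∃ a' : 𝓞 K, a' = (a : 𝓞 K) := ⟨_, rfl⟩
  obtain ⟨c', hc'⟩ : ∃ c' : 𝓞 K, c' = (c : 𝓞 K) := ⟨_, rfl⟩
  have haK : (a' : K) = (a : K) := by rw [ha']; push_cast; rfl
  have hcK : (c' : K) = (c : K) := by rw [hc']; push_cast; rfl
  have hDK : a' ^ 2 - 64 * c' = ((a ^ 2 - 64 * c : ℤ) : 𝓞 K) := by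
    rw [ha', hc']; push_cast; ring
  have hD0 : a' ^ 2 - 64 * c' ≠ 0 := by
    rw [hDK]
    exact_mod_cast hDpos.ne'
  have hc0 : c' ≠ 0 := by
    rw [hc']
    exact_mod_cast hc
  obtain ⟨k, hk⟩ : ∃ k : ℤ, a = 1 + 4 * k := ⟨(a - 1) / 4, by omega⟩
  have hsk : a' = (1 : 𝓞 K) ^ 2 + 4 * (k : 𝓞 K) := by
    rw [ha', hk]; push_cast; ring
  have ha2 : ∀ v : HeightOneSpectrum (𝓞 K), (2 : 𝓞 K) ∈ v.asIdeal → a' ∉ v.asIdeal := by
    intro v h2 h3
    apply v.isPrime.ne_top
    rw [Ideal.eq_top_iff_one]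
    have e : (1 : 𝓞 K) = a' - 2 * (2 * (k : 𝓞 K)) := by rw [hsk]; ring
    rw [e]
    exact sub_mem h3 (v.asIdeal.mul_mem_right _ h2)
  have hI : ∀ φ : K →+* ℝ, φ c' < 0 ∨ (0 < φ a' ∧ 64 * φ c' < φ a' ^ 2) := by
    intro φ
    have e1 : φ (c' : K) = (c : ℝ) := by rw [hcK, map_intCast]
    have e2 : φ (a' : K) = (a : ℝ) := by rw [haK, map_intCast]
    rw [e1, e2]
    rcases hsign with h1 | ⟨h1, h2⟩
    · left
      exact_mod_cast h1
    · right
      exact ⟨by exact_mod_cast h1, by exact_mod_cast h2⟩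
  obtain ⟨f1, f2, l1, -, -, hu⟩ := @Pool.Agent.N922.Q.mainK K _ _ DivisionRing.toRatAlgebra
    inferInstance a' c' 1 k hsk hc0 hD0 ha2 _ _ rfl rfl
  obtain ⟨u1, u2⟩ := hu hI
  have hr : Pool.Agent.N922.Q.rI a' c' + InfinitePlace.nrComplexPlaces K = infinite K := by
    unfold infinite
    rw [← Pool.Agent.R432.CX.card_emb]
    congr 1
    exact Nat.card_congr (Equiv.subtypeUnivEquiv hI)
  have hE : Pool.Agent.N922.Q.cv a' c' = E K a c := by
    show (⟨0, -2 * (a' : K), 0, (a' : K) ^ 2 - 64 * (c' : K), 0⟩ : WeierstrassCurve K) = _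
    unfold E
    rw [haK, hcK]
  have hE' : Pool.Agent.Y682.wc (a' : K) (16 * (c' : K)) = E' K a c := by
    show (⟨0, (a' : K), 0, 16 * (c' : K), 0⟩ : WeierstrassCurve K) = _
    unfold E'
    rw [haK, hcK]
  have ht := Pool.Agent.N958.TR2.omega_le K (a ^ 2 - 64 * c) hDpos.ne'
  have hs := Pool.Agent.N958.TR2.omega_le K c hc
  rw [hDK, hr, hE] at l1
  rw [hDK, hr, hE] at u1
  rw [hDK, hr, hE'] at u2
  rw [hc'] at u1 u2
  rw [hE] at f1
  rw [hE'] at f2
  refine ⟨f1, f2, ?_, ?_, ?_⟩
  · unfold Lower clTwo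
    refine l1.trans ?_
    have e : 2 ^ (2 + Module.finrank ℚ K * omega (a ^ 2 - 64 * c)) * size (E K a c) =
        2 ^ (rank (E K a c) + 2 + Module.finrank ℚ K * omega (a ^ 2 - 64 * c)) *
          Nat.card (ShaTwo (E K a c)) := by
      unfold size
      rw [add_assoc (rank (E K a c)), pow_add 2 (rank (E K a c))]
      ring
    rw [e]
    exact Nat.mul_le_mul_right _ (Nat.pow_le_pow_right (by norm_num) (Nat.add_le_add_left ht _))
  · unfold Upper clTwo
    have e : 4 * size (E K a c) = 2 ^ (rank (E K a c) + 2) * Nat.card (ShaTwo (E K a c)) := by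
      unfold size
      rw [pow_add 2 (rank (E K a c))]
      ring
    rw [e]
    exact u1.trans (Nat.mul_le_mul_right _ (Nat.pow_le_pow_right (by norm_num)
      (Nat.add_le_add (Nat.add_le_add_left ht _) hs)))
  · unfold Upper clTwo
    have e : 4 * size (E' K a c) = 2 ^ (rank (E' K a c) + 2) * Nat.card (ShaTwo (E' K a c)) := by
      unfold size
      rw [pow_add 2 (rank (E' K a c))]
      ring
    rw [e]
    exact u2.trans (Nat.mul_le_mul_right _ (Nat.pow_le_pow_right (by norm_num)
      (Nat.add_le_add (Nat.add_le_add_left ht _) hs)))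

theorem twoRank_iff (K : Type) [Field K] [NumberField K] (R : ℕ) :
    TwoRankAtLeast K R ↔ 2 ^ R ≤ clTwo K :=
  Pool.Agent.N958.TR2.embeds_iff (ClassGroup (𝓞 K)) R

theorem infinite_le (K : Type) [Field K] [NumberField K] : infinite K ≤ Module.finrank ℚ K := by
  unfold infinite
  have := InfinitePlace.card_add_two_mul_card_eq_rank K
  omega

/-- from class groups to curves -/
theorem curve_of_class {d : ℕ} {a c : ℤ} (h : Admissible a c)
    {P : ∀ (K : Type) [Field K] [NumberField K], Prop} (hU : ClassGroupsUnbounded d P) :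
    CurveUnbounded a c d P := by
  intro R
  obtain ⟨K, i1, i2, hd, hP, hR⟩ := hU (R + (2 + d * omega (a ^ 2 - 64 * c)))
  refine ⟨K, i1, i2, hd, hP, ?_⟩
  obtain ⟨-, -, hl, -, -⟩ := bounds K h
  rw [hd] at hl
  unfold Lower at hl
  have h1 := (twoRank_iff K _).1 hR
  have h2 : 2 ^ R * 2 ^ (2 + d * omega (a ^ 2 - 64 * c)) ≤
      size (E K a c) * 2 ^ (2 + d * omega (a ^ 2 - 64 * c)) := by
    calc 2 ^ R * 2 ^ (2 + d * omega (a ^ 2 - 64 * c)) = 2 ^ (R + (2 + d * omega (a ^ 2 - 64 * c))) :=
          (pow_add _ _ _).symm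
      _ ≤ clTwo K := h1
      _ ≤ 2 ^ infinite K * clTwo K := Nat.le_mul_of_pos_left _ (by positivity)
      _ ≤ _ := by rw [mul_comm (size _)]; exact hl
  exact Nat.le_of_mul_le_mul_right h2 (by positivity)

/-- the upper bound with small class groups -/
theorem size_le {K : Type} [Field K] [NumberField K] {a c : ℤ} {W : WeierstrassCurve K} {d R : ℕ}
    (hd : Module.finrank ℚ K = d) (hu : Upper K a c W d) (hR : clTwo K ≤ 2 ^ R) :
    size W ≤ 2 ^ (d + 2 * R + d * (omega (a ^ 2 - 64 * c) + omega c)) := by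
  unfold Upper at hu
  calc size W ≤ 4 * size W := Nat.le_mul_of_pos_left _ (by norm_num)
    _ ≤ 2 ^ (infinite K + d * omega (a ^ 2 - 64 * c) + d * omega c) * clTwo K ^ 2 := hu
    _ ≤ 2 ^ (d + d * omega (a ^ 2 - 64 * c) + d * omega c) * (2 ^ R) ^ 2 := by
        have h1 : infinite K ≤ d := hd ▸ infinite_le K
        exact Nat.mul_le_mul (Nat.pow_le_pow_right (by norm_num) (by omega))
          (Nat.pow_le_pow_left hR 2)
    _ = _ := by
        rw [← pow_mul, ← pow_add]
        congr 1
        ring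

/-- from curves to class groups -/
theorem class_of_curve {d : ℕ} {a c : ℤ} (h : Admissible a c)
    {P : ∀ (K : Type) [Field K] [NumberField K], Prop} (hU : CurveUnbounded a c d P) :
    ClassGroupsUnbounded d P := by
  intro R
  obtain ⟨K, i1, i2, hd, hP, hR⟩ :=
    hU (d + 2 * R + d * (omega (a ^ 2 - 64 * c) + omega c) + 1)
  refine ⟨K, i1, i2, hd, hP, (twoRank_iff K R).2 ?_⟩
  by_contra hcon
  obtain ⟨-, -, -, hu, -⟩ := bounds K h
  rw [hd] at hu
  have h1 := size_le hd hu (not_le.1 hcon).le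
  have h2 : 2 ^ (d + 2 * R + d * (omega (a ^ 2 - 64 * c) + omega c)) <
      2 ^ (d + 2 * R + d * (omega (a ^ 2 - 64 * c) + omega c) + 1) :=
    Nat.pow_lt_pow_right (by norm_num) (Nat.lt_succ_self _)
  omega

/-- **The 2-ranks of the class groups of the fields of degree `d` and elliptic curves.** -/
theorem result :
    -- the 2-rank and the number of elements of order two
    (∀ (K : Type) [Field K] [NumberField K] (R : ℕ), TwoRankAtLeast K R ↔ 2 ^ R ≤ clTwo K) ∧
    -- (1) the bounds
    (∀ (K : Type) [Field K] [NumberField K] (a c : ℤ), Admissible a c →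
      Finite (ShaTwo (E K a c)) ∧ Finite (ShaTwo (E' K a c)) ∧
      Lower K a c (Module.finrank ℚ K) ∧ Upper K a c (E K a c) (Module.finrank ℚ K) ∧
      Upper K a c (E' K a c) (Module.finrank ℚ K)) ∧
    -- (2) the equivalence, for every family of number fields of degree `d`
    (∀ (d : ℕ) (P : ∀ (K : Type) [Field K] [NumberField K], Prop) (a c : ℤ), Admissible a c →
      (ClassGroupsUnbounded d P ↔ CurveUnbounded a c d P)) ∧
    -- (3) the uniform bound if the 2-ranks are bounded
    (∀ (d : ℕ) (P : ∀ (K : Type) [Field K] [NumberField K], Prop), ¬ ClassGroupsUnbounded d P →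
      ∃ C : ℕ, ∀ a c : ℤ, Admissible a c → ∀ (K : Type) [Field K] [NumberField K],
        Module.finrank ℚ K = d → P K →
          size (E K a c) ≤ 2 ^ (C + d * (omega (a ^ 2 - 64 * c) + omega c)) ∧
          size (E' K a c) ≤ 2 ^ (C + d * (omega (a ^ 2 - 64 * c) + omega c))) := by
  refine ⟨fun K _ _ R => twoRank_iff K R, fun K _ _ a c h => bounds K h,
    fun d P a c h => ⟨curve_of_class h, class_of_curve h⟩, fun d P hU => ?_⟩
  unfold ClassGroupsUnbounded at hU
  push Not at hU
  obtain ⟨R, hR⟩ := hU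
  refine ⟨d + 2 * R, fun a c h K _ _ hd hP => ?_⟩
  obtain ⟨-, -, -, hu, hu'⟩ := bounds K h
  rw [hd] at hu hu'
  have h1 : clTwo K ≤ 2 ^ R := by
    by_contra hcon
    exact hR K inferInstance inferInstance hd hP ((twoRank_iff K R).2 (not_le.1 hcon).le)
  exact ⟨size_le hd hu h1, size_le hd hu' h1⟩

end Pool.Agent.Results.MP_176ace_nt.TwoRanksEllipticCurves
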